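import Pool.Agent.Helper98.LM.St

/-!
# Project LM, module PR2: one pair
-/

set_option autoImplicit false

noncomputable section

namespace Pool.Agent.Helper72.LM

open Finset
open Pool.Agent.Helper98.LM
open Pool.Agent.Helper18.TR (StFL)
open Pool.Agent.Helper15.AB (StMT)
open Pool.Agent.Helper30.LQ (StMR4)

private lemma mem_QQ {p w l : ℕ} (h : l ∈ QQ p w) : l.Prime ∧ p < l ∧ l ≤ w := by
  unfold QQ at h
  obtain ⟨h1, h2⟩ := mem_filter.1 h
  obtain ⟨h3, h4⟩ := mem_Ioc.1 h1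
  exact ⟨h2, h3, h4⟩

private lemma mod_fz (P a k l m : ℕ) :
    (l : ℤ) ∣ fz ((a : ℤ) + P * ((m % l : ℕ) : ℤ)) k ↔ (l : ℤ) ∣ fz ((a : ℤ) + P * m) k := by
  have h : (l : ℤ) ∣ fz ((a : ℤ) + P * m) k - fz ((a : ℤ) + P * ((m % l : ℕ) : ℤ)) k := by
    have h1 : (m : ℤ) = l * ((m / l : ℕ) : ℤ) + ((m % l : ℕ) : ℤ) := by
      exact_mod_cast (Nat.div_add_mod m l).symm
    generalize ((m % l : ℕ) : ℤ) = u at h1 ⊢
    generalize ((m / l : ℕ) : ℤ) = v at h1 ⊢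
    rw [h1]
    refine ⟨P * v * (2 * (a + P * u) + P * (l * v) - k), ?_⟩
    unfold fz
    ring
  exact ⟨fun h2 => by simpa using dvd_add h h2, fun h2 => by simpa using dvd_sub h2 h⟩

private lemma mem_SS (P a k l m : ℕ) (hl : 0 < l) :
    m % l ∈ SS P a k l ↔ (l : ℤ) ∣ fz ((a : ℤ) + P * m) k := by
  unfold SS
  rw [mem_filter, mem_range, mod_fz]
  exact ⟨fun h => h.2, fun h => ⟨Nat.mod_lt _ hl, h⟩⟩

private lemma rh_le (l : ℕ) : (rh l : ℝ) ≤ 2 := by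
  unfold rh
  split_ifs <;> norm_num

private lemma ge_one (l : ℕ) (hl : 8 ≤ l) : 1 ≤ (1 - (rh l : ℝ) / l) ^ 2 * (1 + 8 / (l : ℝ)) := by
  have hl0 : (8 : ℝ) ≤ l := by exact_mod_cast hl
  have hl1 : (0 : ℝ) < l := by linarith
  have hx : (1 : ℝ) / l ≤ 1 / 8 := one_div_le_one_div_of_le (by norm_num) hl0
  have hx0 : (0 : ℝ) < 1 / l := by positivity
  have e1 : (8 : ℝ) / l = 8 * (1 / l) := by ring
  rw [e1]
  have h1 : (1 - 2 * (1 / (l : ℝ))) ^ 2 ≤ (1 - (rh l : ℝ) / l) ^ 2 := by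
    refine pow_le_pow_left₀ (by linarith) ?_ 2
    have : (rh l : ℝ) / l ≤ 2 * (1 / (l : ℝ)) := by
      have h2 := mul_le_mul_of_nonneg_right (rh_le l) hx0.le
      calc (rh l : ℝ) / l = rh l * (1 / (l : ℝ)) := by ring
        _ ≤ _ := h2
    linarith
  have h2 : 1 ≤ (1 - 2 * (1 / (l : ℝ))) ^ 2 * (1 + 8 * (1 / (l : ℝ))) := by
    generalize (1 : ℝ) / l = x at hx hx0
    nlinarith [mul_pos hx0 hx0, mul_pos (mul_pos hx0 hx0) hx0, mul_nonneg hx0.le (sub_nonneg.2 hx)]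
  exact h2.trans (mul_le_mul_of_nonneg_right h1 (by linarith))

private lemma point (hL : StLOC) (P a k k' l : ℕ) (hl : l.Prime) (h8 : 8 ≤ l) (hP : ¬ l ∣ P) :
    1 - ((SS P a k l ∪ SS P a k' l).card : ℝ) / l ≤
      ((1 - (rh l : ℝ) / l) * (1 - (rh l : ℝ) / l)) * ((if l ∣ k' then (1 + 8 / (l : ℝ)) else 1) *
        (if l ∣ DD k k' then (1 + 8 / (l : ℝ)) else 1)) := by
  obtain ⟨-, -, h3, h4⟩ := hL P a l hl (by omega) hP
  have hl1 : (0 : ℝ) < l := by exact_mod_cast hl.pos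
  have h5 := ge_one l h8
  rw [pow_two] at h5
  have h6 : (0 : ℝ) ≤ ((SS P a k l ∪ SS P a k' l).card : ℝ) / l := by positivity
  have h7 : (1 : ℝ) ≤ 1 + 8 / (l : ℝ) := by
    have : (0 : ℝ) ≤ 8 / (l : ℝ) := by positivity
    linarith
  have h8' : (0 : ℝ) ≤ (1 - (rh l : ℝ) / l) * (1 - (rh l : ℝ) / l) := mul_self_nonneg _
  by_cases c1 : l ∣ k'
  · rw [if_pos c1]
    by_cases c2 : l ∣ DD k k'
    · rw [if_pos c2, ← mul_assoc]
      nlinarith
    · rw [if_neg c2, mul_one]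
      linarith
  · rw [if_neg c1, one_mul]
    by_cases c2 : l ∣ DD k k'
    · rw [if_pos c2]
      linarith
    · rw [if_neg c2, mul_one, card_union_of_disjoint (h4 k k' c1 c2), h3 k' c1, h3 k ?_]
      · push_cast
        have e : (1 - (rh l : ℝ) / l) * (1 - (rh l : ℝ) / l) =
            1 - ((rh l : ℝ) + rh l) / l + ((rh l : ℝ) / l) * ((rh l : ℝ) / l) := by ring
        rw [e]
        have := mul_self_nonneg ((rh l : ℝ) / l)
        linarith
      · intro h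
        apply c2
        unfold DD
        exact Dvd.dvd.mul_right (Dvd.dvd.mul_right h _) _

/-- PR2. -/
theorem hPR2 (hS : StSV) (hL : StLOC) : StPR2 := by
  intro ε hε
  obtain ⟨B, hB⟩ := hS ε hε
  refine ⟨B, fun p P a k k' w M hp hP hw => ?_⟩
  have hnP : ∀ l ∈ QQ p w, ¬ l ∣ P := by
    intro l hl h
    have h1 := mem_QQ hl
    have h2 := hP l h1.1 h
    omega
  have h8 : ∀ l ∈ QQ p w, 8 ≤ l := by
    intro l hl
    have h1 := mem_QQ hl
    omega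
  have hc4 : ∀ l ∈ QQ p w, (SS P a k l ∪ SS P a k' l).card ≤ 4 := by
    intro l hl
    obtain ⟨h2, -, -, -⟩ := hL P a l (mem_QQ hl).1 (by have := h8 l hl; omega) (hnP l hl)
    calc (SS P a k l ∪ SS P a k' l).card ≤ (SS P a k l).card + (SS P a k' l).card := card_union_le _ _
      _ ≤ 2 + 2 := Nat.add_le_add (h2 k) (h2 k')
      _ = 4 := rfl
  have key := hB w M hw (QQ p w) (fun l => SS P a k l ∪ SS P a k' l)
    (fun l hl => ⟨(mem_QQ hl).1, h8 l hl, (mem_QQ hl).2.2⟩)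
    (fun l hl => ⟨fun s hs => by
      rcases mem_union.1 hs with h | h
      · unfold SS at h
        exact mem_range.1 (mem_filter.1 h).1
      · unfold SS at h
        exact mem_range.1 (mem_filter.1 h).1, hc4 l hl⟩)
  have hset : (Icc 1 M).filter (fun m : ℕ => (∀ l ∈ QQ p w, ¬ (l : ℤ) ∣ fz ((a : ℤ) + P * m) k) ∧
      ∀ l ∈ QQ p w, ¬ (l : ℤ) ∣ fz ((a : ℤ) + P * m) k') =
      (Icc 1 M).filter (fun m : ℕ => ∀ l ∈ QQ p w, m % l ∉ SS P a k l ∪ SS P a k' l) := by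
    refine filter_congr fun m _ => ?_
    constructor
    · rintro ⟨h1, h2⟩ l hl h
      rcases mem_union.1 h with h3 | h3
      · exact h1 l hl ((mem_SS P a k l m (mem_QQ hl).1.pos).1 h3)
      · exact h2 l hl ((mem_SS P a k' l m (mem_QQ hl).1.pos).1 h3)
    · intro h
      exact ⟨fun l hl h1 => h l hl (mem_union_left _ ((mem_SS P a k l m (mem_QQ hl).1.pos).2 h1)),
        fun l hl h1 => h l hl (mem_union_right _ ((mem_SS P a k' l m (mem_QQ hl).1.pos).2 h1))⟩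
  rw [hset]
  have hprod : ∏ l ∈ QQ p w, (1 - ((SS P a k l ∪ SS P a k' l).card : ℝ) / l) ≤
      VV p w ^ 2 * ((∏ l ∈ (QQ p w).filter (fun l => l ∣ k'), (1 + 8 / (l : ℝ))) *
      ∏ l ∈ (QQ p w).filter (fun l => l ∣ DD k k'), (1 + 8 / (l : ℝ))) := by
    rw [prod_filter, prod_filter, pow_two]
    unfold VV
    rw [← prod_mul_distrib, ← prod_mul_distrib, ← prod_mul_distrib]
    refine prod_le_prod (fun l hl => ?_) (fun l hl => point hL P a k k' l (mem_QQ hl).1 (h8 l hl) (hnP l hl))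
    have h1 : (((SS P a k l ∪ SS P a k' l).card : ℕ) : ℝ) ≤ 4 := by exact_mod_cast hc4 l hl
    have h2 : (8 : ℝ) ≤ l := by exact_mod_cast h8 l hl
    have h3 : (0 : ℝ) < l := by linarith
    rw [sub_nonneg, div_le_one h3]
    linarith
  have hM : (0 : ℝ) ≤ M := Nat.cast_nonneg M
  have h1 := (abs_le.1 key).2
  have h2 := mul_le_mul_of_nonneg_left hprod hM
  have h3 := mul_le_mul_of_nonneg_left h2 (by linarith : (0 : ℝ) ≤ 1 + ε)
  calc _ ≤ (1 + ε) * (M * ∏ l ∈ QQ p w, (1 - ((SS P a k l ∪ SS P a k' l).card : ℝ) / l)) + (w : ℝ) ^ B := by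
        linarith
    _ ≤ _ := by
        rw [mul_assoc (M : ℝ)]
        linarith

end Pool.Agent.Helper72.LM
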